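import Pool.Agent.H93.ES.Targets

/-!
# The levels on one block of integers (MP_c59857_nt)
-/

set_option autoImplicit false

namespace Pool.Agent.H40.ES

open Finset Pool.Agent.H18.MR Pool.Agent.H93.DE Pool.Agent.H6.N4D Pool.Agent.H93
open Pool.Agent.H93.ES

/-- multiples in an interval -/
theorem mult_card (q n L : ℕ) (hq : 1 ≤ q) :
    q * ((Ioc n (n + L)).filter (fun m => q ∣ m)).card ≤ L + q := by
  have h1 : ((Ioc 0 (n + L)).filter (fun m => q ∣ m)).card =
      ((Ioc 0 n).filter (fun m => q ∣ m)).card +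
        ((Ioc n (n + L)).filter (fun m => q ∣ m)).card := by
    rw [← Finset.card_union_of_disjoint]
    · congr 1
      rw [← Finset.filter_union]
      congr 1
      rw [Finset.Ioc_union_Ioc_eq_Ioc (Nat.zero_le n) (Nat.le_add_right n L)]
    · rw [Finset.disjoint_left]
      intro m h1 h2
      have h3 := (Finset.mem_Ioc.1 (Finset.mem_filter.1 h1).1).2
      have h4 := (Finset.mem_Ioc.1 (Finset.mem_filter.1 h2).1).1
      omega
  rw [Nat.Ioc_filter_dvd_card_eq_div, Nat.Ioc_filter_dvd_card_eq_div] at h1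
  have h2 : q * ((n + L) / q) ≤ n + L := Nat.mul_div_le _ _
  have h3 : n < q * (n / q + 1) := by
    have := Nat.lt_mul_div_succ n (show 0 < q by omega)
    simpa using this
  have h4 : q * ((n + L) / q) = q * (n / q) +
      q * ((Ioc n (n + L)).filter (fun m => q ∣ m)).card := by
    rw [h1, Nat.mul_add]
  have h5 : q * (n / q + 1) = q * (n / q) + q := by ring
  omega

theorem D_sum (q n L : ℕ) (hq : 1 ≤ q) (hqL : q ≤ L) :
    ∑ m ∈ Ioc n (n + L), |EB.D q m| ≤ 3 * L := by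
  have h1 : ∀ m ∈ Ioc n (n + L), |EB.D q m| ≤ (if q ∣ m then (q : ℝ) else 0) + 1 := by
    intro m _
    unfold EB.D
    refine (abs_sub _ _).trans ?_
    rw [abs_one]
    gcongr
    rw [abs_of_nonneg]
    split_ifs <;> positivity
  refine (sum_le_sum h1).trans ?_
  rw [sum_add_distrib, ← sum_filter, sum_const, sum_const, nsmul_eq_mul, nsmul_eq_mul, mul_one,
    Nat.card_Ioc]
  have h2 := mult_card q n L hq
  have h3 : (q : ℝ) * (((Ioc n (n + L)).filter (fun m => q ∣ m)).card : ℝ) ≤ L + q := by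
    exact_mod_cast h2
  have h4 : (q : ℝ) ≤ L := by exact_mod_cast hqL
  have h5 : ((n + L - n : ℕ) : ℝ) = L := by rw [Nat.add_sub_cancel_left]
  rw [h5]
  linarith

theorem zz_le3 {lam : ℕ → ℝ} (hl : ∀ n, 1 ≤ n → lam n = 1 ∨ lam n = -1) {q L : ℕ} (n : ℕ)
    (hq : 1 ≤ q) (hqL : q ≤ L) (α : ℝ) {g : ℕ → ℂ} (hg : ∀ m ∈ Ioc n (n + L), ‖g m‖ ≤ 1) :
    EB.zz lam q L n α g ≤ 3 := by
  unfold EB.zz
  have hL : (0 : ℝ) < L := by
    have : 0 < L := by omega
    exact_mod_cast this
  rw [norm_div, Complex.norm_natCast, div_le_iff₀ hL]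
  refine (norm_sum_le _ _).trans ((sum_le_sum fun m hm => ?_).trans (D_sum q n L hq hqL))
  have h1 : |lam m| = 1 := by
    have h2 := (mem_Ioc.1 hm).1
    rcases hl m (by omega) with h | h <;> rw [h] <;> norm_num
  rw [norm_mul, norm_mul, norm_mul, norm_ee, mul_one, Complex.norm_real, Complex.norm_real,
    Real.norm_eq_abs, Real.norm_eq_abs, h1, one_mul]
  calc |EB.D q m| * ‖g m‖ ≤ |EB.D q m| * 1 := by
        gcongr
        exact hg m hm
    _ = _ := mul_one _

theorem zz_nonneg (lam : ℕ → ℝ) (q L n : ℕ) (α : ℝ) (g : ℕ → ℂ) : 0 ≤ EB.zz lam q L n α g :=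
  norm_nonneg _

theorem QQ_facts {w q : ℕ} (h : q ∈ EB.QQ w) : 1 ≤ q ∧ q ≤ 2 ^ w ∧
    ∀ N, primorial (2 ^ (w / 200)) ∣ N → q ∣ N := by
  unfold EB.QQ at h
  rw [mem_filter, mem_Ioc] at h
  obtain ⟨⟨h1, h2⟩, h3⟩ := h
  refine ⟨h3.one_le, h2.trans (Nat.pow_le_pow_right (by norm_num) (Nat.div_le_self _ _)), ?_⟩
  intro N hN
  refine dvd_trans ?_ hN
  unfold primorial
  apply Finset.dvd_prod_of_mem
  rw [mem_filter, mem_range]
  exact ⟨by omega, h3⟩

/-- the sum of the tests on one window -/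
theorem tests_le {lam : ℕ → ℝ} (hl : ∀ n, 1 ≤ n → lam n = 1 ∨ lam n = -1) {W : ℝ}
    (hW : ∀ w : ℕ, ∑ q ∈ EB.QQ w, 1 / (q : ℝ) ≤ W) (w n : ℕ) (c : ℕ → ℝ) (α : ℕ → ℝ)
    (g : ℕ → ℕ → ℂ) (hc : ∀ q ∈ EB.QQ w, 0 ≤ c q ∧ c q ≤ 1)
    (hg : ∀ q ∈ EB.QQ w, ∀ m ∈ Ioc n (n + 2 ^ w), ‖g q m‖ ≤ 1) :
    ∑ q ∈ EB.QQ w, 1 / (q : ℝ) * (c q * EB.zz lam q (2 ^ w) n (α q) (g q) ^ 2) ≤ 9 * W := by
  calc ∑ q ∈ EB.QQ w, 1 / (q : ℝ) * (c q * EB.zz lam q (2 ^ w) n (α q) (g q) ^ 2)
      ≤ ∑ q ∈ EB.QQ w, 1 / (q : ℝ) * (1 * 3 ^ 2) := by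
        refine sum_le_sum fun q hq => ?_
        obtain ⟨h1, h2, -⟩ := QQ_facts hq
        have h3 := zz_le3 hl n h1 h2 (α q) (hg q hq)
        have h4 := zz_nonneg lam q (2 ^ w) n (α q) (g q)
        have h5 := (hc q hq).2
        have h6 := (hc q hq).1
        gcongr
    _ = 9 * ∑ q ∈ EB.QQ w, 1 / (q : ℝ) := by
        rw [← sum_mul]
        ring
    _ ≤ _ := by
        have := hW w
        linarith

/-- from the block to the cyclic group -/
theorem blk_sum {N : ℕ} [NeZero N] (L : ℕ) (F : ℕ → ℝ) (G : ZMod N → ℝ) (b : ℝ) (hb : 0 ≤ b)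
    (hF : ∀ k < N, F k ≤ b) (hG : ∀ n, 0 ≤ G n)
    (hFG : ∀ k, k + 1 + L ≤ N → F k ≤ G ((k + 1 : ℕ) : ZMod N)) (hL : 1 ≤ L) :
    (∑ k ∈ range N, F k) / (N : ℝ) ≤ avZ G + b * L / N := by
  have hN : (0 : ℝ) < N := by
    have := NeZero.pos N
    exact_mod_cast this
  unfold avZ
  rw [← add_div]
  apply div_le_div_of_nonneg_right _ hN.le
  rw [← sum_filter_add_sum_filter_not (range N) (fun k => k + 1 + L ≤ N)]
  apply add_le_add
  · calc ∑ k ∈ (range N).filter (fun k => k + 1 + L ≤ N), F k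
        ≤ ∑ k ∈ (range N).filter (fun k => k + 1 + L ≤ N), G ((k + 1 : ℕ) : ZMod N) :=
          sum_le_sum fun k hk => hFG k (mem_filter.1 hk).2
      _ = ∑ n ∈ ((range N).filter (fun k => k + 1 + L ≤ N)).image
            (fun k : ℕ => ((k + 1 : ℕ) : ZMod N)), G n := by
          rw [sum_image]
          intro k hk k' hk' h
          have h1 := (mem_filter.1 (Finset.mem_coe.1 hk)).2
          have h2 := (mem_filter.1 (Finset.mem_coe.1 hk')).2
          have h3 : ((k + 1 : ℕ) : ZMod N).val = ((k' + 1 : ℕ) : ZMod N).val := congrArg _ h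
          rw [ZMod.val_natCast_of_lt (by omega), ZMod.val_natCast_of_lt (by omega)] at h3
          omega
      _ ≤ _ := sum_le_sum_of_subset_of_nonneg (subset_univ _) fun n _ _ => hG n
  · calc ∑ k ∈ (range N).filter (fun k => ¬ k + 1 + L ≤ N), F k
        ≤ ∑ k ∈ (range N).filter (fun k => ¬ k + 1 + L ≤ N), b :=
          sum_le_sum fun k hk => hF k (mem_range.1 (mem_filter.1 hk).1)
      _ = ((range N).filter (fun k => ¬ k + 1 + L ≤ N)).card * b := by
          rw [sum_const, nsmul_eq_mul]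
      _ ≤ L * b := by
          gcongr
          have h1 : (range N).filter (fun k => ¬ k + 1 + L ≤ N) ⊆ Ico (N - L) N := by
            intro k hk
            obtain ⟨h2, h3⟩ := mem_filter.1 hk
            rw [mem_range] at h2
            rw [mem_Ico]
            omega
          refine (card_le_card h1).trans ?_
          rw [Nat.card_Ico]
          omega
      _ = _ := mul_comm _ _

theorem pf_BK (hC : T_CY) (hW : T_WIN) (hQ : T_QSU) : T_BK := by
  obtain ⟨C, w₀, hC0, hC⟩ := hC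
  obtain ⟨W, hW0, hQ⟩ := hQ
  refine ⟨C + 9 * W, w₀, by positivity, ?_⟩
  intro N K i _ lam w hi hl hw0 hw hN
  have hNpos : 0 < N := NeZero.pos N
  have hN0 : (0 : ℝ) < N := by exact_mod_cast hNpos
  have hiN : 1 ≤ i * N := Nat.mul_pos hi hNpos
  obtain ⟨hA, hB⟩ := hC N K (blk lam N i) w hw0 hw hN
  set Q : ℝ := ent (unif N) (fun n => wd (blk lam N i) (2 ^ (w 0 / 400)) n) / 2 ^ (w 0 / 400) +
    Real.log (w 0) / w 0 with hQd
  -- the error of one level
  have herr : ∀ F : ℕ → ℕ → ℝ, ∀ G : ℕ → ZMod N → ℝ,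
      (∀ j < K, ∀ k < N, F j k ≤ 9 * W) → (∀ j < K, ∀ n, 0 ≤ G j n) →
      (∀ j < K, ∀ k, k + 1 + 2 ^ w j ≤ N → F j k ≤ G j ((k + 1 : ℕ) : ZMod N)) →
      ∑ j ∈ range K, avZ (G j) ≤ C * Q →
      ∑ j ∈ range K, (∑ k ∈ range N, F j k) / (N : ℝ) ≤
        (C + 9 * W) * (Q + (∑ j ∈ range K, (2 : ℝ) ^ w j) / (N : ℝ)) := by
    intro F G h1 h2 h3 h4
    have h5 : ∑ j ∈ range K, (∑ k ∈ range N, F j k) / (N : ℝ) ≤
        ∑ j ∈ range K, (avZ (G j) + 9 * W * ((2 ^ w j : ℕ) : ℝ) / N) := by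
      refine sum_le_sum fun j hj => ?_
      have hj' := mem_range.1 hj
      exact blk_sum (2 ^ w j) (F j) (G j) (9 * W) (by positivity) (h1 j hj') (h2 j hj')
        (h3 j hj') Nat.one_le_two_pow
    rw [sum_add_distrib] at h5
    have h6 : ∑ j ∈ range K, 9 * W * ((2 ^ w j : ℕ) : ℝ) / N =
        9 * W * ((∑ j ∈ range K, (2 : ℝ) ^ w j) / (N : ℝ)) := by
      rw [sum_div, mul_sum]
      refine sum_congr rfl fun j _ => ?_
      push_cast
      ring
    rw [h6] at h5
    have h7 : 0 ≤ (∑ j ∈ range K, (2 : ℝ) ^ w j) / (N : ℝ) := by positivity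
    have h8 : 0 ≤ Q := by
      have h9 : 0 ≤ ∑ j ∈ range K, avZ (G j) := by
        refine sum_nonneg fun j hj => ?_
        unfold avZ
        have : 0 ≤ ∑ n, G j n := sum_nonneg fun n _ => h2 j (mem_range.1 hj) n
        positivity
      have h10 : 0 ≤ C * Q := h9.trans h4
      nlinarith
    nlinarith [mul_nonneg hC0.le h7, mul_nonneg hW0.le h8]
  constructor
  · intro α g hg
    refine (herr (fun j k => ∑ q ∈ EB.QQ (w j), 1 / (q : ℝ) *
      EB.zz lam q (2 ^ w j) (i * N + k) (α j (i * N + k)) (g j (i * N + k) q) ^ 2)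
      (fun j n => ∑ q ∈ EB.QQ (w j), 1 / (q : ℝ) *
      ‖wm (ltr (blk lam N i) n) (w j) (fun t => kA q n.val (α j (i * N + n.val - 1)) t *
        g j (i * N + n.val - 1) q (i * N + n.val + t))‖ ^ 2) ?_ ?_ ?_ ?_)
    · intro j hj k _
      have h1 := tests_le hl hQ (w j) (i * N + k) (fun _ => 1) (fun _ => α j (i * N + k))
        (g j (i * N + k)) (fun q _ => ⟨zero_le_one, le_rfl⟩) (fun q hq => (hg j hj _ q hq).bd)
      simpa using h1
    · intro j _ n
      exact sum_nonneg fun q _ => by positivity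
    · intro j hj k hk
      refine sum_le_sum fun q hq => ?_
      obtain ⟨h1, -, h3⟩ := QQ_facts hq
      have hv : ((k + 1 : ℕ) : ZMod N).val = k + 1 := ZMod.val_natCast_of_lt (by
        have : 1 ≤ 2 ^ w j := Nat.one_le_two_pow
        omega)
      have h4 := (hW N (w j) i q lam (α j (i * N + k)) (g j (i * N + k) q)
        ((k + 1 : ℕ) : ZMod N) hi hl h1 (h3 N (hN j hj)) (by rw [hv]; exact hk)).1
      rw [hv] at h4
      have h5 : i * N + (k + 1) - 1 = i * N + k := by omega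
      rw [h5] at h4
      simp only [hv, h5]
      rw [h4]
    · exact hA (fun j n => α j (i * N + n.val - 1))
        (fun j n q t => g j (i * N + n.val - 1) q (i * N + n.val + t)) (by
        intro j hj n q hq
        obtain ⟨h1, h2⟩ := hg j hj (i * N + n.val - 1) q hq
        constructor
        · intro t ht
          apply h1
          rw [mem_Ioc]
          omega
        · refine le_trans (le_of_eq ?_) h2
          have h3 : Ioo (i * N + n.val - 1) (i * N + n.val - 1 + 2 ^ w j) =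
              Ico (i * N + n.val) (i * N + n.val - 1 + 2 ^ w j) := by
            ext m
            rw [mem_Ioo, mem_Ico]
            omega
          rw [h3, Finset.sum_Ico_eq_sum_range]
          have h4 : i * N + n.val - 1 + 2 ^ w j - (i * N + n.val) = 2 ^ w j - 1 := by omega
          rw [h4]
          refine sum_congr rfl fun t _ => ?_
          rw [← add_assoc])
  · intro β
    obtain ⟨α', hα1, hα2⟩ := hB (fun j n q => β j (i * N + n.val - 1) q)
    classical
    refine ⟨fun j n q => if j < K ∧ i * N ≤ n ∧ (n - i * N) + 1 + 2 ^ w j ≤ N then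
      α' j (((n - i * N) + 1 : ℕ) : ZMod N) q else β j n q, ?_, ?_⟩
    · intro j n q hq
      by_cases h : j < K ∧ i * N ≤ n ∧ (n - i * N) + 1 + 2 ^ w j ≤ N
      · obtain ⟨b, hb⟩ := hα1 j h.1 (((n - i * N) + 1 : ℕ) : ZMod N) q hq
        refine ⟨b, ?_⟩
        simp only []
        rw [if_pos h, hb]
        have hv : (((n - i * N) + 1 : ℕ) : ZMod N).val = (n - i * N) + 1 :=
          ZMod.val_natCast_of_lt (by
            have : 1 ≤ 2 ^ w j := Nat.one_le_two_pow
            omega)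
        have h5 : i * N + ((n - i * N) + 1) - 1 = n := by omega
        simp only [hv, h5]
      · refine ⟨0, ?_⟩
        simp only []
        rw [if_neg h]
        simp
    · refine herr (fun j k => ∑ q ∈ EB.QQ (w j), 1 / (q : ℝ) *
        (EB.ind (63 / 100 ≤ ‖EB.crq lam q (2 ^ w j) (i * N + k) (β j (i * N + k) q)‖) *
          EB.zz lam q (2 ^ w j) (i * N + k)
            (if j < K ∧ i * N ≤ i * N + k ∧ (i * N + k - i * N) + 1 + 2 ^ w j ≤ N then
              α' j (((i * N + k - i * N) + 1 : ℕ) : ZMod N) q else β j (i * N + k) q)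
            (fun _ => 1) ^ 2))
        (fun j n => ∑ q ∈ EB.QQ (w j), 1 / (q : ℝ) *
        (EB.ind (63 / 100 ≤ ‖wm (ltr (blk lam N i) n) (w j)
            (kB q n.val (β j (i * N + n.val - 1) q))‖) *
          ‖wm (ltr (blk lam N i) n) (w j) (kA q n.val (α' j n q))‖ ^ 2)) ?_ ?_ ?_ hα2
      · intro j hj k _
        refine tests_le hl hQ (w j) (i * N + k) (fun q => EB.ind (63 / 100 ≤
          ‖EB.crq lam q (2 ^ w j) (i * N + k) (β j (i * N + k) q)‖)) _ (fun _ _ => 1) ?_ ?_
        · intro q _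
          unfold EB.ind
          split_ifs <;> norm_num
        · intro q _ m _
          simp
      · intro j _ n
        refine sum_nonneg fun q _ => ?_
        have : 0 ≤ EB.ind (63 / 100 ≤ ‖wm (ltr (blk lam N i) n) (w j)
            (kB q n.val (β j (i * N + n.val - 1) q))‖) := by
          unfold EB.ind
          split_ifs <;> norm_num
        positivity
      · intro j hj k hk
        refine sum_le_sum fun q hq => ?_
        obtain ⟨h1, -, h3⟩ := QQ_facts hq
        have hv : ((k + 1 : ℕ) : ZMod N).val = k + 1 := ZMod.val_natCast_of_lt (by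
          have : 1 ≤ 2 ^ w j := Nat.one_le_two_pow
          omega)
        have h5 : i * N + (k + 1) - 1 = i * N + k := by omega
        have h6 : i * N + k - i * N = k := by omega
        have h7 : j < K ∧ i * N ≤ i * N + k ∧ k + 1 + 2 ^ w j ≤ N := ⟨hj, by omega, hk⟩
        have h4 := (hW N (w j) i q lam (α' j ((k + 1 : ℕ) : ZMod N) q) (fun _ => 1)
          ((k + 1 : ℕ) : ZMod N) hi hl h1 (h3 N (hN j hj)) (by rw [hv]; exact hk)).1
        have h8 := (hW N (w j) i q lam (β j (i * N + k) q) (fun _ => 1)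
          ((k + 1 : ℕ) : ZMod N) hi hl h1 (h3 N (hN j hj)) (by rw [hv]; exact hk)).2
        rw [hv, h5] at h4 h8
        simp only [hv, h5, h6]
        rw [if_pos h7, h4, h8]
        simp only [mul_one]
        exact le_rfl

end Pool.Agent.H40.ES
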