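import Pool.Agent.H40.ES.BK

/-!
# The inequality of Bessel for levels of any number, below the logarithm (MP_c59857_nt)
-/

set_option autoImplicit false

namespace Pool.Agent.H40.ES

open Finset Pool.Agent.H18.MR Pool.Agent.H93.DE Pool.Agent.H6.N4D Pool.Agent.H93
open Pool.Agent.H93.ES

theorem hc_one {N : ℕ} [NeZero N] (x : ZMod N → Bool) (L : ℕ) :
    hc x L 1 = ent (unif N) (fun n => wd x L n) := by
  unfold hc
  rw [dif_neg one_ne_zero]
  simp only [Nat.cast_one, Real.log_one, sub_zero]
  exact (ent_congr_inj _ (fun n => wd x L n) (fun n => (wd x L n, rs N 1 n)) (fun w => (w, 0))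
    Prod.fst (fun n => by rw [Prod.mk.injEq]; exact ⟨rfl, Subsingleton.elim _ _⟩)
    (fun n => rfl)).symm

theorem ent_mono (hM : T_MNT) {N : ℕ} [NeZero N] (x : ZMod N → Bool) {a s : ℕ} (h : s ≤ a) :
    ent (unif N) (fun n => wd x (2 ^ a) n) / 2 ^ a ≤
      ent (unif N) (fun n => wd x (2 ^ s) n) / 2 ^ s := by
  have h1 := hM N (2 ^ (a - s)) (2 ^ s) 1 1 x one_pos (one_dvd 1) (one_dvd N)
  have h2 : 2 ^ (a - s) * 2 ^ s = 2 ^ a := by
    rw [← pow_add]
    congr 1
    omega
  rw [h2, hc_one, hc_one] at h1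
  have h3 : (2 : ℝ) ^ a = 2 ^ (a - s) * 2 ^ s := by
    rw [← pow_add]
    congr 1
    omega
  rw [h3, div_le_div_iff₀ (by positivity) (by positivity)]
  have h4 : (0 : ℝ) < 2 ^ s := by positivity
  push_cast at h1
  nlinarith

theorem harm (n X : ℕ) (hn : n ≤ X) (hX : 1 ≤ X) :
    ∑ i ∈ Icc 1 n, 1 / (i : ℝ) ≤ 1 + Real.log X := by
  have h1 : ∑ i ∈ Icc 1 n, 1 / (i : ℝ) = ((harmonic n : ℚ) : ℝ) := by
    rw [harmonic_eq_sum_Icc]
    push_cast
    exact sum_congr rfl fun i _ => one_div _
  rw [h1]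
  refine (harmonic_le_one_add_log n).trans ?_
  rcases Nat.eq_zero_or_pos n with h | h
  · subst h
    simp only [Nat.cast_zero, Real.log_zero, add_zero]
    have : 0 ≤ Real.log X := Real.log_natCast_nonneg X
    linarith
  · have : Real.log n ≤ Real.log X := Real.log_le_log (by exact_mod_cast h) (by exact_mod_cast hn)
    linarith

theorem sq_two (M : ℕ) : (M + 1) ^ 2 ≤ 4 * 2 ^ M := by
  induction M with
  | zero => norm_num
  | succ M ih =>
    rcases Nat.lt_or_ge M 2 with h | h
    · interval_cases M <;> norm_num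
    · rw [pow_succ 2 M]
      nlinarith

/-- sizes -/
theorem size_facts {M : ℕ} {l L : ℝ} (hl : 0 ≤ l) (hL : (4 : ℝ) ^ M ≤ L) :
    ((M : ℝ) + 1) * (1 + 2 * 2 ^ (M / 200) + 3 * M + l) ≤ (17 + l) * Real.sqrt L := by
  have hL0 : 0 < L := lt_of_lt_of_le (by positivity) hL
  have h1 : (2 : ℝ) ^ M ≤ Real.sqrt L := by
    apply Real.le_sqrt_of_sq_le
    rw [← pow_mul, mul_comm, pow_mul]
    norm_num
    exact hL
  have h2 : ((M : ℝ) + 1) ^ 2 ≤ 4 * 2 ^ M := by exact_mod_cast sq_two M
  have h3 : ((2 : ℝ) ^ (M / 200)) ^ 2 ≤ 2 ^ M := by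
    rw [← pow_mul]
    apply pow_le_pow_right₀ (by norm_num)
    omega
  have h4 : (M : ℝ) + 1 ≤ 2 ^ M := by
    have := Nat.lt_two_pow_self (n := M)
    exact_mod_cast this
  set A : ℝ := 2 ^ (M / 200) with hA
  have hA0 : 0 < A := by positivity
  have hM0 : (0 : ℝ) ≤ M := Nat.cast_nonneg M
  have h5 : 0 ≤ ((M : ℝ) + 1 - A) ^ 2 := sq_nonneg _
  have h6 : ((M : ℝ) + 1) * l ≤ 2 ^ M * l := by gcongr
  calc ((M : ℝ) + 1) * (1 + 2 * A + 3 * M + l) ≤ (17 + l) * 2 ^ M := by nlinarith
    _ ≤ _ := by gcongr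

theorem pf_EBS (hB : T_BK) (hU : T_BLU) (hE : T_ENB) (hQ : T_QSU) (hM : T_MNT) : T_EBS := by
  obtain ⟨C, w₀, hC, hB⟩ := hB
  obtain ⟨W, hW0, hQ⟩ := hQ
  refine ⟨400 + w₀, by omega, ?_⟩
  intro ε hε
  obtain ⟨e, he, hE⟩ := hE (ε / (8 * C)) (by positivity)
  refine ⟨e, he, ?_⟩
  intro R
  obtain ⟨s₁, hE⟩ := hE R
  -- small logarithms
  obtain ⟨s₂, hs₂⟩ : ∃ s₂ : ℕ, ∀ x : ℕ, s₂ ≤ x → Real.log x / x ≤ ε / (16 * C) := by
    have h1 : Filter.Tendsto (fun x : ℕ => Real.log x / x) Filter.atTop (nhds 0) := by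
      have h2 := Real.isLittleO_log_id_atTop.tendsto_div_nhds_zero
      exact h2.comp tendsto_natCast_atTop_atTop
    have h3 := h1.eventually (ge_mem_nhds (show (0 : ℝ) < ε / (16 * C) by positivity))
    obtain ⟨s₂, hs₂⟩ := Filter.eventually_atTop.1 h3
    exact ⟨s₂, fun x hx => hs₂ x hx⟩
  refine ⟨s₁ + s₂ + 1, ?_⟩
  intro s hs
  obtain ⟨N₀, hE⟩ := hE s (by omega)
  set l : ℝ := Real.log ((N₀ + 1 : ℕ) : ℝ) with hl
  have hl0 : 0 ≤ l := Real.log_natCast_nonneg _
  set T : ℝ := (17 + l) + 216 * W * (17 + l) / ε + 1 with hT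
  have hT1 : 1 ≤ T := by
    have : 0 ≤ 216 * W * (17 + l) / ε := by positivity
    linarith
  have hT2 : 17 + l ≤ T := by
    have : 0 ≤ 216 * W * (17 + l) / ε := by positivity
    linarith
  have hT3 : 216 * W * (17 + l) / ε ≤ T := by linarith
  refine ⟨⌈Real.exp (T ^ 2)⌉₊ + 3, ?_⟩
  intro X K lam m hX hlam hBase hs0 hm hmX
  have hX3 : 3 ≤ X := by omega
  have hXr : (0 : ℝ) < X := by
    have : 0 < X := by omega
    exact_mod_cast this
  set L : ℝ := Real.log X with hLd
  have hLT : T ^ 2 ≤ L := by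
    rw [hLd, Real.le_log_iff_exp_le hXr]
    refine (Nat.le_ceil _).trans ?_
    exact_mod_cast (show ⌈Real.exp (T ^ 2)⌉₊ ≤ X by omega)
  have hL1 : 1 ≤ L := by nlinarith
  have hsq : T ≤ Real.sqrt L := Real.le_sqrt_of_sq_le hLT
  have hsqL : Real.sqrt L * Real.sqrt L = L := Real.mul_self_sqrt (by linarith)
  have hsq0 : 0 < Real.sqrt L := by linarith
  have hm0 : s₁ + s₂ + 1 ≤ m 0 ∧ w₀ ≤ m 0 ∧ 400 * s ≤ m 0 ∧ 400 ≤ m 0 := by
    have h1 : 400 * s + w₀ * s ≤ m 0 := by linarith [hs0]
    have h2 : w₀ * 1 ≤ w₀ * s := Nat.mul_le_mul_left _ (by omega)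
    refine ⟨by omega, by omega, by omega, by omega⟩
  have hm' : ∀ i, i + 1 < K → 400 * m i ≤ m (i + 1) := by
    intro i hi
    refine le_trans ?_ (hm i hi)
    exact Nat.mul_le_mul_right _ (by omega)
  -- the main estimate
  have main : ∀ F : ℕ → ℕ → ℝ, (∀ j n, 0 ≤ F j n ∧ F j n ≤ 9 * W) →
      (∀ (N i : ℕ) [NeZero N], 1 ≤ i → (∀ j < K, primorial (2 ^ (m j / 200)) ∣ N) → 1 ≤ K →
        ((range K).sup m) = ((range K).sup m) →
        N = primorial (2 ^ (((range K).sup m) / 200)) * 2 ^ (3 * ((range K).sup m)) * (N₀ + 1) →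
        ∑ j ∈ range K, (∑ k ∈ range N, F j (i * N + k)) / (N : ℝ) ≤
        C * (ent (unif N) (fun n => wd (blk lam N i) (2 ^ (m 0 / 400)) n) / 2 ^ (m 0 / 400) +
          Real.log (m 0) / m 0 + (∑ j ∈ range K, (2 : ℝ) ^ m j) / (N : ℝ))) →
      ∑ j ∈ range K, EB.lg X (F j) ≤ ε * L := by
    intro F hF hFb
    rcases Nat.eq_zero_or_pos K with hK | hK
    · subst hK
      simp only [range_zero, sum_empty]
      positivity
    obtain ⟨M, hMd⟩ : ∃ M : ℕ, M = (range K).sup m := ⟨_, rfl⟩
    have hmM : ∀ j < K, m j ≤ M := by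
      intro j hj
      rw [hMd]
      exact Finset.le_sup (f := m) (mem_range.2 hj)
    have hML : (4 : ℝ) ^ M ≤ L := by
      obtain ⟨j, hj, hj2⟩ := Finset.exists_mem_eq_sup (range K) ⟨0, mem_range.2 hK⟩ m
      rw [hMd, hj2]
      exact hmX j (mem_range.1 hj)
    have hKM : K ≤ M + 1 := by
      have h1 : ∀ j < K, j + 400 ≤ m j + 0 ∨ j + 400 ≤ m j := by
        intro j
        induction j with
        | zero => intro _; right; omega
        | succ j ih =>
          intro hj
          have h2 := ih (by omega)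
          have h3 := hm' j hj
          right
          omega
      have h2 := h1 (K - 1) (by omega)
      have h3 := hmM (K - 1) (by omega)
      omega
    set N : ℕ := primorial (2 ^ (M / 200)) * 2 ^ (3 * M) * (N₀ + 1) with hN
    have hNpos : 0 < N := by
      rw [hN]
      have := primorial_pos (2 ^ (M / 200))
      positivity
    haveI : NeZero N := ⟨hNpos.ne'⟩
    have hNr : (0 : ℝ) < N := by exact_mod_cast hNpos
    have hdvd : ∀ j < K, primorial (2 ^ (m j / 200)) ∣ N := by
      intro j hj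
      refine dvd_trans (primorial_dvd_primorial ?_) (Dvd.intro _ (by rw [hN, mul_assoc]))
      exact Nat.pow_le_pow_right (by norm_num) (Nat.div_le_div_right (hmM j hj))
    have hlogN : Real.log N ≤ 2 * 2 ^ (M / 200) + 3 * M + l := by
      have h1 : (N : ℝ) = (primorial (2 ^ (M / 200)) : ℝ) * 2 ^ (3 * M) *
          ((N₀ + 1 : ℕ) : ℝ) := by
        rw [hN]
        push_cast
        ring
      have hp : (0 : ℝ) < (primorial (2 ^ (M / 200)) : ℝ) := by
        exact_mod_cast primorial_pos _
      have hN0' : (0 : ℝ) < ((N₀ + 1 : ℕ) : ℝ) := by positivity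
      rw [h1, Real.log_mul (by positivity) (by positivity), Real.log_mul hp.ne'
        (by positivity), ← hl, Real.log_pow]
      have h2 : Real.log (primorial (2 ^ (M / 200)) : ℝ) ≤ 2 * 2 ^ (M / 200) := by
        have h3 : (primorial (2 ^ (M / 200)) : ℝ) ≤ 4 ^ (2 ^ (M / 200)) := by
          exact_mod_cast primorial_le_four_pow _
        refine (Real.log_le_log hp h3).trans ?_
        rw [Real.log_pow]
        have h4 : Real.log 4 ≤ 2 := by
          have h5 : Real.log 4 = 2 * Real.log 2 := by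
            rw [show (4 : ℝ) = 2 ^ 2 by norm_num, Real.log_pow]
            norm_num
          have := Real.log_two_lt_d9
          rw [h5]
          linarith
        push_cast
        have h6 : (0 : ℝ) < 2 ^ (M / 200) := by positivity
        nlinarith
      have h7 : ((3 * M : ℕ) : ℝ) * Real.log 2 ≤ 3 * M := by
        have := Real.log_two_lt_d9
        have h8 : (0 : ℝ) ≤ M := Nat.cast_nonneg M
        push_cast
        nlinarith
      linarith
    have hsize := size_facts (M := M) hl0 hML
    have hM0 : (0 : ℝ) ≤ M := Nat.cast_nonneg M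
    have hlogN0 : 0 ≤ Real.log N := Real.log_natCast_nonneg N
    have hKlog : ((M : ℝ) + 1) * (1 + Real.log N) ≤ (17 + l) * Real.sqrt L := by
      refine le_trans ?_ hsize
      exact mul_le_mul_of_nonneg_left (by linarith) (by positivity)
    have h1N : 1 + Real.log N ≤ L := by
      calc 1 + Real.log N ≤ ((M : ℝ) + 1) * (1 + Real.log N) := by
            apply le_mul_of_one_le_left (by positivity)
            linarith
        _ ≤ (17 + l) * Real.sqrt L := hKlog
        _ ≤ Real.sqrt L * Real.sqrt L := by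
            gcongr
            linarith
        _ = L := hsqL
    have h2N : 2 * N ≤ X := by
      have h3 : Real.log (2 * N) ≤ Real.log X := by
        rw [Real.log_mul (by norm_num) hNr.ne']
        have := Real.log_two_lt_d9
        linarith
      have h4 : (2 * (N : ℝ)) ≤ X := (Real.log_le_log_iff (by positivity) hXr).1 h3
      exact_mod_cast h4
    have hN0N : N₀ ≤ N := by
      have h3 : 1 * (N₀ + 1) ≤ N := by
        rw [hN]
        apply Nat.mul_le_mul_right
        have := primorial_pos (2 ^ (M / 200))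
        exact Nat.mul_pos this (by positivity)
      omega
    have hENB := hE X N lam hN0N h2N hlam hBase
    -- the last error
    have hm0r : (0 : ℝ) < m 0 := by
      have : 0 < m 0 := by omega
      exact_mod_cast this
    have hlast : (∑ j ∈ range K, (2 : ℝ) ^ m j) / (N : ℝ) ≤ Real.log (m 0) / m 0 := by
      have h3 : ∑ j ∈ range K, (2 : ℝ) ^ m j ≤ 2 ^ M * 2 ^ M := by
        calc ∑ j ∈ range K, (2 : ℝ) ^ m j ≤ ∑ _j ∈ range K, (2 : ℝ) ^ M := by
              refine sum_le_sum fun j hj => ?_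
              exact pow_le_pow_right₀ (by norm_num) (hmM j (mem_range.1 hj))
          _ = K * 2 ^ M := by rw [sum_const, nsmul_eq_mul, card_range]
          _ ≤ 2 ^ M * 2 ^ M := by
              gcongr
              have h4 := Nat.lt_two_pow_self (n := M)
              have h5 : K ≤ 2 ^ M := by omega
              exact_mod_cast h5
      have h4 : (2 : ℝ) ^ (3 * M) ≤ N := by
        have h5 : 1 * 2 ^ (3 * M) * 1 ≤ N := by
          rw [hN]
          have := primorial_pos (2 ^ (M / 200))
          apply Nat.mul_le_mul _ (by omega)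
          apply Nat.mul_le_mul_right
          exact this
        rw [one_mul, mul_one] at h5
        exact_mod_cast h5
      have h6 : (m 0 : ℝ) ≤ 2 ^ M := by
        have h7 := Nat.lt_two_pow_self (n := M)
        have h8 := hmM 0 hK
        have h9 : m 0 ≤ 2 ^ M := by omega
        exact_mod_cast h9
      have h10 : 1 ≤ Real.log (m 0) := by
        rw [Real.le_log_iff_exp_le hm0r]
        have h11 : Real.exp 1 < 2.7182818286 := Real.exp_one_lt_d9
        have h12 : (400 : ℝ) ≤ m 0 := by exact_mod_cast hm0.2.2.2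
        linarith
      rw [div_le_div_iff₀ hNr hm0r]
      calc (∑ j ∈ range K, (2 : ℝ) ^ m j) * m 0 ≤ (2 ^ M * 2 ^ M) * 2 ^ M := by gcongr
        _ = 2 ^ (3 * M) := by
            rw [← pow_add, ← pow_add]
            congr 1
            ring
        _ ≤ 1 * N := by linarith
        _ ≤ Real.log (m 0) * N := by gcongr
    have hlogm : Real.log (m 0) / m 0 ≤ ε / (16 * C) := hs₂ (m 0) (by omega)
    have hlogm0 : 0 ≤ Real.log (m 0) / m 0 := by
      have : 0 ≤ Real.log (m 0) := Real.log_natCast_nonneg _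
      positivity
    -- each block
    have hblock : ∀ i ∈ Icc 1 (X / N - 1), 1 / (i : ℝ) *
        (∑ j ∈ range K, (∑ k ∈ range N, F j (i * N + k)) / (N : ℝ)) ≤
        C * (1 / (i : ℝ) * (ent (unif N) (fun n => wd (blk lam N i) (2 ^ s) n) / 2 ^ s)) +
          ε / 8 * (1 / (i : ℝ)) := by
      intro i hi
      have hi1 := (mem_Icc.1 hi).1
      have h3 := hFb N i hi1 hdvd hK rfl (by rw [← hMd])
      have h4 := ent_mono hM (blk lam N i) (a := m 0 / 400) (s := s) (by omega)
      have hi0 : (0 : ℝ) ≤ 1 / (i : ℝ) := by positivity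
      have h5 : ∑ j ∈ range K, (∑ k ∈ range N, F j (i * N + k)) / (N : ℝ) ≤
          C * (ent (unif N) (fun n => wd (blk lam N i) (2 ^ s) n) / 2 ^ s) + ε / 8 := by
        refine h3.trans ?_
        have h6 : C * (ε / (16 * C) + ε / (16 * C)) = ε / 8 := by
          field_simp
          ring
        rw [← h6, ← mul_add]
        exact mul_le_mul_of_nonneg_left (by linarith) hC.le
      calc 1 / (i : ℝ) * (∑ j ∈ range K, (∑ k ∈ range N, F j (i * N + k)) / (N : ℝ))
          ≤ 1 / (i : ℝ) * (C * (ent (unif N) (fun n => wd (blk lam N i) (2 ^ s) n) / 2 ^ s) +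
            ε / 8) := by gcongr
        _ = _ := by ring
    calc ∑ j ∈ range K, EB.lg X (F j)
        ≤ ∑ j ∈ range K, (3 * (9 * W) * (1 + Real.log N) +
          ∑ i ∈ Icc 1 (X / N - 1), 1 / (i : ℝ) *
            ((∑ k ∈ range N, F j (i * N + k)) / (N : ℝ))) := by
          refine sum_le_sum fun j _ => ?_
          exact hU X N (F j) (9 * W) hNpos hX3 (by positivity) (hF j)
      _ = K * (27 * W * (1 + Real.log N)) + ∑ i ∈ Icc 1 (X / N - 1), 1 / (i : ℝ) *
            (∑ j ∈ range K, (∑ k ∈ range N, F j (i * N + k)) / (N : ℝ)) := by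
          rw [sum_add_distrib, sum_const, card_range, nsmul_eq_mul, sum_comm]
          congr 1
          · ring
          · refine sum_congr rfl fun i _ => ?_
            rw [mul_sum]
      _ ≤ ε / 8 * L + ∑ i ∈ Icc 1 (X / N - 1),
            (C * (1 / (i : ℝ) * (ent (unif N) (fun n => wd (blk lam N i) (2 ^ s) n) / 2 ^ s)) +
            ε / 8 * (1 / (i : ℝ))) := by
          apply add_le_add _ (sum_le_sum hblock)
          have h3 : (K : ℝ) ≤ (M : ℝ) + 1 := by exact_mod_cast hKM
          calc (K : ℝ) * (27 * W * (1 + Real.log N))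
              ≤ ((M : ℝ) + 1) * (27 * W * (1 + Real.log N)) := by gcongr
            _ = 27 * W * (((M : ℝ) + 1) * (1 + Real.log N)) := by ring
            _ ≤ 27 * W * ((17 + l) * Real.sqrt L) := by gcongr
            _ = ε / 8 * (216 * W * (17 + l) / ε) * Real.sqrt L := by
                field_simp
                ring
            _ ≤ ε / 8 * Real.sqrt L * Real.sqrt L := by
                gcongr
                linarith
            _ = ε / 8 * L := by rw [mul_assoc, hsqL]
      _ ≤ ε / 8 * L + (C * (ε / (8 * C) * L) + ε / 8 * (1 + L)) := by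
          rw [sum_add_distrib, ← mul_sum, ← mul_sum]
          have h3 := harm (X / N - 1) X (by
            have := Nat.div_le_self X N
            omega) (by omega)
          rw [← hLd] at h3
          gcongr
      _ ≤ ε * L := by
          have h3 : C * (ε / (8 * C) * L) = ε / 8 * L := by
            field_simp
          rw [h3]
          nlinarith
  constructor
  · intro α g hg
    unfold EB.besSum
    have h1 : ∀ j ∈ range K, EB.lg X (fun n => ∑ q ∈ EB.QQ (m j), 1 / (q : ℝ) *
        EB.zz lam q (2 ^ m j) n (α j n) (g j n q) ^ 2) =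
        EB.lg X ((fun j n => if j < K then ∑ q ∈ EB.QQ (m j), 1 / (q : ℝ) *
        EB.zz lam q (2 ^ m j) n (α j n) (g j n q) ^ 2 else 0) j) := by
      intro j hj
      congr 1
      funext n
      simp only [if_pos (mem_range.1 hj)]
    rw [sum_congr rfl h1]
    apply main
    · intro j n
      by_cases hj : j < K
      · simp only [hj, if_true]
        constructor
        · exact sum_nonneg fun q _ => by positivity
        · have h2 := tests_le hlam hQ (m j) n (fun _ => 1) (fun _ => α j n)
            (g j n) (fun q _ => ⟨zero_le_one, le_rfl⟩) (fun q hq => (hg j hj n q hq).bd)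
          simpa using h2
      · simp only [hj, if_false]
        exact ⟨le_rfl, by positivity⟩
    · intro N i _ hi hd _ _ _
      refine le_trans (le_of_eq ?_) ((hB N K i lam m hi hlam hm0.2.1 hm' hd).1 α g hg)
      refine sum_congr rfl fun j hj => ?_
      congr 1
      refine sum_congr rfl fun k _ => ?_
      simp only [if_pos (mem_range.1 hj)]
  · intro β
    set N : ℕ := primorial (2 ^ (((range K).sup m) / 200)) * 2 ^ (3 * ((range K).sup m)) *
      (N₀ + 1) with hN
    have hNpos : 0 < N := by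
      rw [hN]
      have := primorial_pos (2 ^ (((range K).sup m) / 200))
      positivity
    haveI : NeZero N := ⟨hNpos.ne'⟩
    have hdvd : ∀ j < K, primorial (2 ^ (m j / 200)) ∣ N := by
      intro j hj
      refine dvd_trans (primorial_dvd_primorial ?_) (Dvd.intro _ (by rw [hN, mul_assoc]))
      exact Nat.pow_le_pow_right (by norm_num)
        (Nat.div_le_div_right (Finset.le_sup (f := m) (mem_range.2 hj)))
    have hch : ∀ i : ℕ, ∃ α : ℕ → ℕ → ℕ → ℝ, 1 ≤ i →
        ((∀ j n, ∀ q ∈ EB.QQ (m j), ∃ b : ℤ, α j n q = β j n q + (b : ℝ) / q) ∧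
        ∑ j ∈ range K, (∑ k ∈ range N, ∑ q ∈ EB.QQ (m j), 1 / (q : ℝ) *
          (EB.ind (63 / 100 ≤ ‖EB.crq lam q (2 ^ m j) (i * N + k) (β j (i * N + k) q)‖) *
            EB.zz lam q (2 ^ m j) (i * N + k) (α j (i * N + k) q) (fun _ => 1) ^ 2)) /
              (N : ℝ) ≤
        C * (ent (unif N) (fun n => wd (blk lam N i) (2 ^ (m 0 / 400)) n) / 2 ^ (m 0 / 400) +
          Real.log (m 0) / m 0 + (∑ j ∈ range K, (2 : ℝ) ^ m j) / (N : ℝ))) := by
      intro i
      by_cases hi : 1 ≤ i
      · obtain ⟨α, hα⟩ := (hB N K i lam m hi hlam hm0.2.1 hm' hdvd).2 β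
        exact ⟨α, fun _ => hα⟩
      · exact ⟨β, fun h => absurd h hi⟩
    choose A hA using hch
    refine ⟨fun j n q => if 1 ≤ n / N then A (n / N) j n q else β j n q, ?_, ?_⟩
    · intro j _ n q hq
      by_cases h : 1 ≤ n / N
      · obtain ⟨b, hb⟩ := (hA (n / N) h).1 j n q hq
        refine ⟨b, ?_⟩
        simp only [if_pos h]
        rw [hb]
        have h2 : β j n q + (b : ℝ) / q - β j n q - (b : ℝ) / q = 0 := by ring
        rw [h2]
        have h3 : nd 0 = 0 := by simp [nd]
        rw [h3]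
        positivity
      · refine ⟨0, ?_⟩
        simp only [if_neg h]
        have h2 : β j n q - β j n q - ((0 : ℤ) : ℝ) / q = 0 := by simp
        rw [h2]
        have h3 : nd 0 = 0 := by simp [nd]
        rw [h3]
        positivity
    · refine main (fun j n => ∑ q ∈ EB.QQ (m j), 1 / (q : ℝ) *
        (EB.ind (63 / 100 ≤ ‖EB.crq lam q (2 ^ m j) n (β j n q)‖) *
          EB.zz lam q (2 ^ m j) n (if 1 ≤ n / N then A (n / N) j n q else β j n q)
            (fun _ => 1) ^ 2)) ?_ ?_
      · intro j n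
        have h0 : ∀ p : Prop, 0 ≤ EB.ind p ∧ EB.ind p ≤ 1 := by
          intro p
          unfold EB.ind
          split_ifs <;> norm_num
        constructor
        · refine sum_nonneg fun q _ => ?_
          have := (h0 (63 / 100 ≤ ‖EB.crq lam q (2 ^ m j) n (β j n q)‖)).1
          positivity
        · exact tests_le hlam hQ (m j) n _ _ (fun _ _ => 1) (fun q _ => h0 _)
            (fun q _ k _ => by simp)
      · intro N' i _ hi hd hK _ hN'
        have hNN : N' = N := hN'
        subst hNN
        have h1 := (hA i hi).2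
        refine le_trans (le_of_eq ?_) h1
        refine sum_congr rfl fun j hj => ?_
        congr 1
        refine sum_congr rfl fun k hk => ?_
        have h2 : (i * N + k) / N = i := by
          rw [mul_comm, Nat.mul_add_div hNpos, Nat.div_eq_of_lt (mem_range.1 hk), add_zero]
        refine sum_congr rfl fun q _ => ?_
        simp only [h2, if_pos hi]

end Pool.Agent.H40.ES
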